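import Pool.Agent.H523.ZG.Stm

set_option autoImplicit false
set_option linter.unusedSectionVars false

/-! # ZG G (helper190 for helper523): the lower bound of the variance for one modulus -/

namespace Pool.Agent.H190.ZG

open Polynomial Finset
open Pool.Agent.H341R2.Sharp (Mon mem_Mon)
open Pool.Agent.H523.FF (Ir mem_Ir PL mem_PL card_PL two_le_card IrLE mem_IrLE)
open Pool.Agent.H523.CM
open Pool.Agent.H523.ZG

open scoped Classical

variable {F : Type} [Field F] [Fintype F]

/-- the sum of a weight over a residue class -/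
noncomputable def VV (n : ℕ) (Q : F[X]) (w : F[X] → ℝ) (A : F[X]) : ℝ :=
  ∑ f ∈ (Mon F n).filter (fun f => Q ∣ f - A), w f

theorem sum_VV {n : ℕ} {Q : F[X]} (hQ : Q.Monic) (w : F[X] → ℝ) :
    ∑ A ∈ PL F Q.natDegree, VV n Q w A = ∑ f ∈ Mon F n, w f := by
  unfold VV
  simp only [sum_filter]
  rw [sum_comm]
  refine sum_congr rfl (fun f _ => ?_)
  exact sum_classes hQ f (fun _ => w f)

theorem sum_VV_mul {n : ℕ} {Q : F[X]} (hQ : Q.Monic) (hdn : Q.natDegree ≤ n) (u w : F[X] → ℝ) :
    ∑ A ∈ PL F Q.natDegree, VV n Q u A * VV n Q w A =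
      ∑ h ∈ PL F (n - Q.natDegree), ∑ f ∈ Mon F n, u f * w (f - Q * h) := by
  have h1 : ∀ A : F[X], VV n Q u A * VV n Q w A = ∑ f ∈ Mon F n, ∑ g ∈ Mon F n,
      (if Q ∣ f - A then (if Q ∣ g - A then u f * w g else 0) else 0) := by
    intro A
    unfold VV
    rw [sum_filter, sum_filter, sum_mul_sum]
    refine sum_congr rfl (fun f _ => sum_congr rfl (fun g _ => ?_))
    split_ifs <;> ring
  rw [sum_congr rfl (fun A _ => h1 A), sum_comm]
  have h2 : ∀ f ∈ Mon F n, ∑ A ∈ PL F Q.natDegree, ∑ g ∈ Mon F n,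
      (if Q ∣ f - A then (if Q ∣ g - A then u f * w g else 0) else 0) =
      ∑ h ∈ PL F (n - Q.natDegree), u f * w (f - Q * h) := by
    intro f hf
    have h3 : ∀ A : F[X], ∑ g ∈ Mon F n,
        (if Q ∣ f - A then (if Q ∣ g - A then u f * w g else 0) else 0) =
        if Q ∣ f - A then ∑ g ∈ Mon F n, (if Q ∣ g - A then u f * w g else 0) else 0 := by
      intro A
      split_ifs
      · rfl
      · exact sum_const_zero
    rw [sum_congr rfl (fun A _ => h3 A), sum_classes hQ f]
    have h4 : ∀ g : F[X], Q ∣ g - f %ₘ Q ↔ Q ∣ f - g := by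
      intro g
      have h5 : Q ∣ f - f %ₘ Q := ⟨f /ₘ Q, by
        have := modByMonic_add_div f Q
        calc f - f %ₘ Q = (f %ₘ Q + Q * (f /ₘ Q)) - f %ₘ Q := by rw [this]
          _ = _ := by ring⟩
      constructor
      · intro h6
        have := dvd_sub h5 h6
        have e : f - f %ₘ Q - (g - f %ₘ Q) = f - g := by ring
        rwa [e] at this
      · intro h6
        have := dvd_sub h5 h6
        have e : f - f %ₘ Q - (f - g) = g - f %ₘ Q := by ring
        rwa [e] at this
    simp only [h4]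
    rw [← sum_filter, sum_near hQ hdn hf (fun g => u f * w g)]
  rw [sum_congr rfl h2, sum_comm]

theorem aP_ndvd {P f : F[X]} (h : ¬ P ∣ f) : aP P f = gP P := by
  unfold aP gP
  rw [if_neg h, sub_zero]

theorem cB_zero {P : F[X]} (hP : Irreducible P) : cB P 0 = gP P := by
  have h0 := norm_gt hP
  unfold cB aP
  rw [if_pos (dvd_zero P)]
  have h1 : (Fintype.card F : ℝ) ^ P.natDegree - 1 ≠ 0 := by linarith
  have h2 : (1 - (Fintype.card F : ℝ) ^ P.natDegree) / ((Fintype.card F : ℝ) ^ P.natDegree - 1) =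
      -1 := by
    rw [div_eq_iff h1]; ring
  rw [h2]; ring

theorem aP_congr {P x y : F[X]} (h : P ∣ x ↔ P ∣ y) : aP P x = aP P y := by
  unfold aP
  simp only [h]

theorem not_dvd_of_deg {P Q : F[X]} (hPm : P.Monic) (hP : Irreducible P) (hQm : Q.Monic)
    (hQ : Irreducible Q) (h : P.natDegree < Q.natDegree) : ¬ P ∣ Q := by
  intro hd
  have h8 : P = Q := eq_of_monic_of_associated hPm hQm ((hP.dvd_irreducible_iff_associated hQ).mp hd)
  rw [h8] at h
  exact lt_irrefl _ h

theorem main (hV : S_V) : S_G := by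
  intro F _ _ n r T Q hQ hQI hdn hrd hrn
  set SS := SF F r \ SF F T with hSS
  have hSSr : SS ⊆ SF F r := sdiff_subset
  have hSS1 : ∀ s ∈ SS, (∀ P ∈ s, P.Monic ∧ Irreducible P) ∧ ∑ P ∈ s, P.natDegree ≤ r :=
    fun s hs => mem_SF.1 (hSSr hs)
  have hSSd : ∀ s ∈ SS, ∀ P ∈ s, P.natDegree ≤ r := fun s hs P hP =>
    (single_le_sum (f := fun P : F[X] => P.natDegree) (fun _ _ => Nat.zero_le _) hP).trans
      (hSS1 s hs).2
  have hSS0 : ∀ s ∈ SS, s ≠ ∅ := by
    intro s hs h0
    rw [hSS, mem_sdiff] at hs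
    apply hs.2
    rw [h0, mem_SF]
    simp
  set K := n - Q.natDegree with hK
  set L : F[X] → ℝ := LS SS with hL
  set μ : ℝ := (Fintype.card F : ℝ) ^ n / tot Q with hμ
  have hμ0 : 0 ≤ μ := by positivity
  set X0 : ℝ := ∑ s ∈ SS, ∑ h ∈ PL F K, ∏ P ∈ s, cB P h with hX0
  set L0 : ℝ := ∑ f ∈ (Mon F n).filter (fun f => Q ∣ f), L f with hL0
  set E0 : ℝ := ∑ s ∈ SS, ET n s Q with hE0
  have hvth : ∀ A, vth n Q A = VV n Q (th n) A := fun A => rfl
  have hcop : ∀ A ∈ PL F Q.natDegree, IsCoprime A Q ↔ A ≠ 0 := by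
    intro A hA
    rw [isCoprime_comm, hQI.coprime_iff_not_dvd]
    constructor
    · rintro h rfl
      exact h (dvd_zero _)
    · intro h0 hd
      have h3 := degree_le_of_dvd hd h0
      rw [mem_PL, ← degree_eq_natDegree hQ.ne_zero] at hA
      exact absurd h3 (not_le.mpr hA)
  have h0mem : (0 : F[X]) ∈ PL F Q.natDegree := by
    rw [mem_PL, degree_zero]; exact WithBot.bot_lt_coe _
  have h0K : (0 : F[X]) ∈ PL F K := by
    rw [mem_PL, degree_zero]; exact WithBot.bot_lt_coe _
  -- the pointwise inequality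
  have hGG : ∑ A ∈ (PL F Q.natDegree).filter (fun A => IsCoprime A Q),
      (2 * (vth n Q A * VV n Q L A) - 2 * μ * VV n Q L A - VV n Q L A ^ 2) ≤ GG n Q := by
    unfold GG
    refine sum_le_sum fun A _ => ?_
    nlinarith [sq_nonneg (vth n Q A - μ - VV n Q L A)]
  rw [sum_sub_distrib, sum_sub_distrib, ← mul_sum, ← mul_sum] at hGG
  -- the sum of the squares
  have hsq : ∑ A ∈ (PL F Q.natDegree).filter (fun A => IsCoprime A Q), VV n Q L A ^ 2 ≤
      (Fintype.card F : ℝ) ^ n * X0 := by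
    have h1 : ∑ A ∈ (PL F Q.natDegree).filter (fun A => IsCoprime A Q), VV n Q L A ^ 2 ≤
        ∑ A ∈ PL F Q.natDegree, VV n Q L A * VV n Q L A := by
      refine (sum_le_sum_of_subset_of_nonneg (filter_subset _ _)
        fun A _ _ => sq_nonneg _).trans (le_of_eq ?_)
      exact sum_congr rfl fun A _ => sq _
    refine h1.trans (le_of_eq ?_)
    rw [sum_VV_mul hQ hdn.le]
    have h2 : ∀ h ∈ PL F K, ∑ f ∈ Mon F n, L f * L (f - Q * h) =
        (Fintype.card F : ℝ) ^ n * ∑ s ∈ SS, ∏ P ∈ s, cB P h := by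
      intro h _
      rw [hL, hV F n r SS (Q * h) hSSr hrn]
      congr 1
      refine sum_congr rfl fun s hs => prod_congr rfl fun P hP => ?_
      unfold cB
      congr 1
      obtain ⟨hPm, hPI⟩ := (hSS1 s hs).1 P hP
      have h3 : ¬ P ∣ Q := not_dvd_of_deg hPm hPI hQ hQI ((hSSd s hs P hP).trans_lt hrd)
      refine aP_congr ⟨fun h4 => (hPI.prime.dvd_or_dvd h4).resolve_left h3,
        fun h4 => h4.mul_left Q⟩
    rw [sum_congr rfl h2, ← mul_sum, hX0, sum_comm]
  -- the mixed sum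
  have hmix : ∑ A ∈ (PL F Q.natDegree).filter (fun A => IsCoprime A Q),
      vth n Q A * VV n Q L A = Th F n * X0 + E0 := by
    have h1 : ∑ A ∈ (PL F Q.natDegree).filter (fun A => IsCoprime A Q),
        vth n Q A * VV n Q L A = ∑ A ∈ PL F Q.natDegree, VV n Q (th n) A * VV n Q L A := by
      rw [sum_filter]
      refine sum_congr rfl fun A _ => ?_
      split_ifs with h
      · rfl
      · rw [← hvth, vth_zero hQ hdn h, zero_mul]
    rw [h1, sum_VV_mul hQ hdn.le, ← hK]
    have h2 : ∀ h ∈ PL F K, ∑ f ∈ Mon F n, th n f * L (f - Q * h) =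
        ∑ s ∈ SS, ∑ f ∈ Mon F n, th n f * ∏ P ∈ s, aP P (f - Q * h) := by
      intro h _
      rw [sum_comm]
      refine sum_congr rfl fun f _ => ?_
      rw [hL]
      unfold LS
      rw [mul_sum]
    rw [sum_congr rfl h2, sum_comm, hX0, hE0, mul_sum, ← sum_add_distrib]
    refine sum_congr rfl fun s hs => ?_
    have hfil : (PL F K).filter (fun h => h ≠ 0) = (PL F K).erase 0 := by
      ext h
      rw [mem_erase, mem_filter, and_comm]
    unfold ET
    rw [← hK, hfil, sum_sub_distrib, ← add_sum_erase _ _ h0K,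
      ← add_sum_erase (PL F K) (fun h => ∏ P ∈ s, cB P h) h0K, ← mul_sum]
    have h3 : ∑ f ∈ Mon F n, th n f * ∏ P ∈ s, aP P (f - Q * 0) =
        Th F n * ∏ P ∈ s, cB P 0 := by
      unfold Th
      rw [sum_mul]
      refine sum_congr rfl fun f hf => ?_
      by_cases hfI : f ∈ Ir F n
      · congr 1
        refine prod_congr rfl fun P hP => ?_
        obtain ⟨hPm, hPI⟩ := (hSS1 s hs).1 P hP
        obtain ⟨h4, h5, h6⟩ := mem_Ir.mp hfI
        rw [mul_zero, sub_zero, cB_zero hPI]
        refine aP_ndvd (not_dvd_of_deg hPm hPI h4 h5 ?_)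
        rw [h6]
        exact ((hSSd s hs P hP).trans_lt hrd).trans hdn
      · have h4 : th n f = 0 := by
          unfold th
          rw [if_neg hfI]
        rw [h4, zero_mul, zero_mul]
    rw [h3]
    ring
  -- the sum of `L`
  have hlin : ∑ A ∈ (PL F Q.natDegree).filter (fun A => IsCoprime A Q), VV n Q L A = -L0 := by
    have h1 := sum_VV (n := n) hQ L
    have h2 : ∑ f ∈ Mon F n, L f = 0 := by
      rw [hL]
      unfold LS
      rw [sum_comm]
      refine sum_eq_zero fun s hs => ?_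
      rw [sum_Mon_eq n (fun f => ∏ P ∈ s, aP P f)]
      have h3 := orthogonality (F := F) (s := s) (t := ∅) (hSS1 s hs).1 (by simp) (m := n)
        (by rw [union_empty]; exact (hSS1 s hs).2.trans (by omega)) (X ^ n)
      rw [if_neg (hSS0 s hs)] at h3
      simpa using h3
    have hfil : (PL F Q.natDegree).filter (fun A => IsCoprime A Q) = (PL F Q.natDegree).erase 0 := by
      ext A
      rw [mem_erase, mem_filter]
      constructor
      · exact fun h => ⟨(hcop A h.1).1 h.2, h.1⟩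
      · exact fun h => ⟨h.2, (hcop A h.2).2 h.1⟩
    rw [h2, ← add_sum_erase _ _ h0mem, ← hfil] at h1
    have h4 : VV n Q L 0 = L0 := by
      unfold VV
      simp only [sub_zero]
      rfl
    rw [h4] at h1
    linarith
  rw [hmix, hlin] at hGG
  have h5 := neg_abs_le E0
  have h6 : μ * (-|L0|) ≤ μ * L0 := mul_le_mul_of_nonneg_left (neg_abs_le L0) hμ0
  nlinarith

end Pool.Agent.H190.ZG
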